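import Pool.Agent.Lib_helper25.Final0

/-!
# Averages in a module over the units
-/

set_option autoImplicit false
set_option linter.unusedSectionVars false

open Matrix

namespace Pool.Agent.Lib25.H2

universe v w

section Abs

variable {n : ℕ} [NeZero n] {B : Type*} [AddCommGroup B] (T : (ZMod n)ˣ → B →+ B) (κ : ℕ → B)

/-- First averaging: over the decomposition group of `p`. -/
noncomputable def ak2 (p : ℕ) : B :=
  (∏ q ∈ n.primeFactors.erase p, (ucl q (1 : (ZMod n)ˣ)).card) •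
    ∑ w ∈ ucl p (1 : (ZMod n)ˣ), T w (κ p)

/-- The sum over all primes and all units. -/
noncomputable def akS : B := ∑ q ∈ n.primeFactors, ∑ u : (ZMod n)ˣ, T u (ak2 T κ q)

/-- Second averaging. -/
noncomputable def ak3 (p : ℕ) : B :=
  (n.primeFactors.card * Fintype.card (ZMod n)ˣ) • ak2 T κ p - akS T κ

variable {T} {κ}

theorem ak2_nat {B' : Type*} [AddCommGroup B'] {T' : (ZMod n)ˣ → B' →+ B'} {κ' : ℕ → B'}
    (f : B →+ B') (hf : ∀ w x, f (T w x) = T' w (f x)) (hκ : ∀ p, f (κ p) = κ' p) (p : ℕ) :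
    f (ak2 T κ p) = ak2 T' κ' p := by
  unfold ak2
  rw [map_nsmul, map_sum]
  congr 1
  refine Finset.sum_congr rfl fun w _ => ?_
  rw [hf, hκ]

theorem ak3_nat {B' : Type*} [AddCommGroup B'] {T' : (ZMod n)ˣ → B' →+ B'} {κ' : ℕ → B'}
    (f : B →+ B') (hf : ∀ w x, f (T w x) = T' w (f x)) (hκ : ∀ p, f (κ p) = κ' p) (p : ℕ) :
    f (ak3 T κ p) = ak3 T' κ' p := by
  unfold ak3 akS
  rw [map_sub, map_nsmul, ak2_nat f hf hκ, map_sum]
  congr 1
  refine Finset.sum_congr rfl fun q _ => ?_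
  rw [map_sum]
  refine Finset.sum_congr rfl fun u _ => ?_
  rw [hf, ak2_nat f hf hκ]

variable (hT : ∀ u w x, T u (T w x) = T (u * w) x)

include hT

theorem ak3_induct {M : Type*} [AddCommGroup M] (Θ : B →+ M)
    (hΘ : ∀ q ∈ n.primeFactors, ∀ w : (ZMod n)ˣ, Θ (T w (κ q)) = 0) (p : ℕ)
    (hp : p ∈ n.primeFactors) : Θ (ak3 T κ p) = 0 := by
  have h2 : ∀ q ∈ n.primeFactors, ∀ u : (ZMod n)ˣ, Θ (T u (ak2 T κ q)) = 0 := by
    intro q hq u
    unfold ak2
    rw [map_nsmul, map_nsmul, map_sum, map_sum, Finset.sum_eq_zero, smul_zero]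
    intro w _
    rw [hT]
    exact hΘ q hq _
  have h3 : ∀ q ∈ n.primeFactors, Θ (ak2 T κ q) = 0 := by
    intro q hq
    unfold ak2
    rw [map_nsmul, map_sum, Finset.sum_eq_zero, smul_zero]
    intro w _
    exact hΘ q hq _
  unfold ak3 akS
  rw [map_sub, map_nsmul, h3 p hp, smul_zero, map_sum, Finset.sum_eq_zero, sub_zero]
  intro q hq
  rw [map_sum, Finset.sum_eq_zero]
  intro u _
  exact h2 q hq u

theorem T_ak2 (p : ℕ) (w : (ZMod n)ˣ) (hw : uRel n p w 1) : T w (ak2 T κ p) = ak2 T κ p := by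
  unfold ak2
  rw [map_nsmul, map_sum]
  congr 1
  refine Finset.sum_bij (fun w' _ => w * w') ?_ ?_ ?_ ?_
  · intro w' hw'
    rw [mem_ucl] at hw' ⊢
    have h1 := uRel_mul hw w'
    rw [one_mul] at h1
    exact uRel_trans h1 hw'
  · intro a _ b _ hab
    exact mul_left_cancel hab
  · intro b hb
    refine ⟨w⁻¹ * b, ?_, by rw [mul_inv_cancel_left]⟩
    rw [mem_ucl] at hb ⊢
    have h1 := uRel_mul hw (w⁻¹ * b)
    rw [mul_inv_cancel_left, one_mul] at h1
    exact uRel_trans (uRel_symm h1) hb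
  · intro w' _
    exact hT w w' _

theorem T_akS (w : (ZMod n)ˣ) : T w (akS T κ) = akS T κ := by
  unfold akS
  rw [map_sum]
  apply Finset.sum_congr rfl
  intro q _
  rw [map_sum, ← Equiv.sum_comp (Equiv.mulLeft w) (fun u : (ZMod n)ˣ => T u (ak2 T κ q))]
  apply Finset.sum_congr rfl
  intro u _
  exact hT w u _

theorem T_ak3 (p : ℕ) (w : (ZMod n)ˣ) (hw : uRel n p w 1) : T w (ak3 T κ p) = ak3 T κ p := by
  unfold ak3
  rw [map_sub, map_nsmul, T_ak2 hT p w hw, T_akS hT]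

theorem sum_ak3 : ∑ q ∈ n.primeFactors, ∑ u : (ZMod n)ˣ, T u (ak3 T κ q) = 0 := by
  have h1 : ∀ q ∈ n.primeFactors, ∑ u : (ZMod n)ˣ, T u (ak3 T κ q) =
      (n.primeFactors.card * Fintype.card (ZMod n)ˣ) • ∑ u : (ZMod n)ˣ, T u (ak2 T κ q) -
        Fintype.card (ZMod n)ˣ • akS T κ := by
    intro q _
    rw [Finset.smul_sum, ← Finset.card_univ, ← Finset.sum_const, ← Finset.sum_sub_distrib]
    apply Finset.sum_congr rfl
    intro u _
    unfold ak3
    rw [map_sub, map_nsmul, T_akS hT, Finset.card_univ]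
  rw [Finset.sum_congr rfl h1, Finset.sum_sub_distrib, ← Finset.smul_sum, Finset.sum_const,
    ← mul_smul]
  exact sub_self _

end Abs

end Pool.Agent.Lib25.H2
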