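import Pool.Agent.Lib_helper25.Class0
import Pool.Agent.AUK.H2.Integ

/-!
# A normal basis type element which is a combination of nodes
-/

namespace Pool.Agent.WhK
end Pool.Agent.WhK


set_option autoImplicit false
set_option linter.unusedSectionVars false

open Matrix Pool.Agent.WhK

namespace Pool.Agent.Lib25.H2

section Prod

variable {k : Type*} [CommRing k] {P Q : Type*} [CommGroup P] [CommGroup Q]

theorem coeff_inl_inr (α : MonoidAlgebra k P) (β : MonoidAlgebra k Q) (x : P) (y : Q) :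
    (rm k (MonoidHom.inl P Q) α * rm k (MonoidHom.inr P Q) β).coeff (x, y) =
      α.coeff x * β.coeff y := by
  classical
  induction α using MonoidAlgebra.induction_linear with
  | zero => simp
  | add p q hp hq =>
    rw [map_add, add_mul, MonoidAlgebra.coeff_add, Finsupp.add_apply, hp, hq,
      MonoidAlgebra.coeff_add, Finsupp.add_apply, add_mul]
  | single a r =>
    induction β using MonoidAlgebra.induction_linear with
    | zero => simp
    | add p q hp hq =>
      rw [map_add, mul_add, MonoidAlgebra.coeff_add, Finsupp.add_apply, hp, hq,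
        MonoidAlgebra.coeff_add, Finsupp.add_apply, mul_add]
    | single b s =>
      rw [rm_single, rm_single, MonoidAlgebra.single_mul_single]
      simp only [MonoidAlgebra.coeff_single, Finsupp.single_apply]
      have h1 : (MonoidHom.inl P Q a * MonoidHom.inr P Q b : P × Q) = (a, b) := by
        apply Prod.ext
        · exact mul_one a
        · exact one_mul b
      rw [h1]
      by_cases hx : a = x
      · by_cases hy : b = y
        · rw [if_pos (by rw [hx, hy]), if_pos hx, if_pos hy]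
        · rw [if_neg (fun h => hy (congrArg Prod.snd h)), if_neg hy, mul_zero]
      · rw [if_neg (fun h => hx (congrArg Prod.fst h)), if_neg hx, zero_mul]

theorem sH_prod [Finite P] [Finite Q] (A : Subgroup P) :
    sH k (A.prod (⊥ : Subgroup Q)) = rm k (MonoidHom.inl P Q) (sH k A) := by
  classical
  ext ⟨x, y⟩
  have h1 := coeff_inl_inr (sH k A) (1 : MonoidAlgebra k Q) x y
  rw [map_one, mul_one] at h1
  rw [h1, sH_coeff, sH_coeff, MonoidAlgebra.one_def, MonoidAlgebra.coeff_single,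
    Finsupp.single_apply]
  simp only [Subgroup.mem_prod, Subgroup.mem_bot]
  by_cases hx : x ∈ A
  · by_cases hy : y = 1
    · simp [hx, hy]
    · simp [hx, hy, Ne.symm hy]
  · simp [hx]

theorem card_prod_bot (A : Subgroup P) : Nat.card (A.prod (⊥ : Subgroup Q)) = Nat.card A := by
  rw [Nat.card_congr (Subgroup.prodEquiv A (⊥ : Subgroup Q)).toEquiv, Nat.card_prod]
  simp

theorem Node.map {p : ℕ} [Fact p.Prime] {C C' : Type*} [CommGroup C] [CommGroup C']
    {a : MonoidAlgebra ℚ C} {e : MonoidAlgebra ℚ_[p] C} (H : Node p a e) (f : C →* C') :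
    Node p (rm ℚ f a) (rm ℚ_[p] f e) where
  int1 := by
    obtain ⟨b, hb⟩ := H.int1
    exact ⟨rm ℤ f b, by rw [← rm_mapRingHom_apply, hb, map_sub, map_mul]⟩
  int2 := by
    obtain ⟨b, hb⟩ := H.int2
    exact ⟨rm ℤ f b, by rw [← rm_mapRingHom_apply, hb, map_mul, map_sub, map_mul]⟩
  idem := by rw [← map_mul, H.idem]
  orth := by rw [← rm_mapRingHom_apply, ← map_mul, H.orth, map_zero]
  loc := by
    obtain ⟨a', ha'⟩ := H.loc
    exact ⟨rm ℤ_[p] f a', by rw [← rm_mapRingHom_apply, ha', map_add, rm_mapRingHom_apply]⟩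
  away := by
    intro q _ hq
    obtain ⟨a', ha'⟩ := H.away q hq
    exact ⟨rm ℤ_[q] f a', by rw [← rm_mapRingHom_apply, ha', rm_mapRingHom_apply]⟩

theorem coeff_rm_inj {C C' : Type*} [CommGroup C] [CommGroup C'] (f : C →* C')
    (hf : Function.Injective f) (x : MonoidAlgebra k C) (c : C) :
    (rm k f x).coeff (f c) = x.coeff c := by
  classical
  induction x using MonoidAlgebra.induction_linear with
  | zero => simp
  | add p q hp hq =>
    rw [map_add, MonoidAlgebra.coeff_add, Finsupp.add_apply, hp, hq, MonoidAlgebra.coeff_add,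
      Finsupp.add_apply]
  | single a r =>
    rw [rm_single]
    simp only [MonoidAlgebra.coeff_single, Finsupp.single_apply, hf.eq_iff]

end Prod

section CRT

variable (p : ℕ) [hp : Fact p.Prime]

/-- The isomorphism given by the Chinese remainder theorem. -/
def crt {a b : ℕ} (h : a.Coprime b) :
    Multiplicative (ZMod a) × Multiplicative (ZMod b) →* Multiplicative (ZMod (a * b)) where
  toFun x := Multiplicative.ofAdd ((ZMod.chineseRemainder h).symm
    (Multiplicative.toAdd x.1, Multiplicative.toAdd x.2))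
  map_one' := by
    change Multiplicative.ofAdd ((ZMod.chineseRemainder h).symm (0, 0)) = 1
    have : ((0, 0) : ZMod a × ZMod b) = 0 := rfl
    rw [this, map_zero]
    rfl
  map_mul' x y := by
    rw [← ofAdd_add, ← map_add]
    rfl

theorem crt_inj {a b : ℕ} (h : a.Coprime b) : Function.Injective (crt h) := by
  intro x y hxy
  have h1 := (ZMod.chineseRemainder h).symm.injective (Multiplicative.ofAdd.injective hxy)
  exact Prod.ext (Multiplicative.toAdd.injective (congrArg Prod.fst h1))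
    (Multiplicative.toAdd.injective (congrArg Prod.snd h1))

theorem crt_apply {a b : ℕ} (h : a.Coprime b) (u : ZMod (a * b)) :
    crt h (Multiplicative.ofAdd (ZMod.chineseRemainder h u).1,
      Multiplicative.ofAdd (ZMod.chineseRemainder h u).2) = Multiplicative.ofAdd u := by
  change Multiplicative.ofAdd ((ZMod.chineseRemainder h).symm
    ((ZMod.chineseRemainder h u).1, (ZMod.chineseRemainder h u).2)) = _
  rw [Prod.mk.eta, RingEquiv.symm_apply_apply]

theorem mem_range_pow_iff {k : ℕ} (hk : 0 < k) (a : ZMod (p ^ k)) :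
    Multiplicative.ofAdd a ∈ (powMonoidHom p : Multiplicative (ZMod (p ^ k)) →* _).range ↔
      ¬ IsUnit a := by
  have : NeZero (p ^ k) := ⟨pow_ne_zero _ hp.out.ne_zero⟩
  constructor
  · rintro ⟨z, hz⟩ hu
    have h1 : (p : ZMod (p ^ k)) * Multiplicative.toAdd z = a := by
      have h2 : Multiplicative.toAdd (z ^ p) = a := congrArg Multiplicative.toAdd hz
      rw [toAdd_pow, nsmul_eq_mul] at h2
      exact h2
    rw [← h1] at hu
    have h3 := isUnit_of_mul_isUnit_left hu
    rw [ZMod.isUnit_iff_coprime] at h3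
    have h4 : p ∣ Nat.gcd p (p ^ k) := Nat.dvd_gcd (dvd_refl p) (dvd_pow_self p hk.ne')
    rw [h3] at h4
    exact hp.out.one_lt.ne' (Nat.dvd_one.1 h4)
  · intro hu
    have h1 : ¬ (a.val).Coprime (p ^ k) := by
      rw [← ZMod.isUnit_iff_coprime, ZMod.natCast_zmod_val]
      exact hu
    have h2 : p ∣ a.val := by
      by_contra h
      exact h1 ((hp.out.coprime_iff_not_dvd.2 h).symm.pow_right k)
    obtain ⟨b, hb⟩ := h2
    refine ⟨Multiplicative.ofAdd (b : ZMod (p ^ k)), ?_⟩
    change (Multiplicative.ofAdd (b : ZMod (p ^ k))) ^ p = _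
    rw [← ofAdd_nsmul]
    congr 1
    rw [nsmul_eq_mul, ← Nat.cast_mul, ← hb, ZMod.natCast_zmod_val]

theorem uRel_crt {k m : ℕ} [NeZero m] (h : (p ^ k).Coprime m) [NeZero (p ^ k * m)]
    (u z : (ZMod (p ^ k * m))ˣ) (u' z' : (ZMod m)ˣ)
    (hu : (u' : ZMod m) = (ZMod.chineseRemainder h u).2)
    (hz : (z' : ZMod m) = (ZMod.chineseRemainder h z).2) :
    uRel (p ^ k * m) p u z ↔ uRel m p u' z' := by
  constructor
  · rintro ⟨i, j, hij⟩
    refine ⟨i, j, ?_⟩
    have h1 := congrArg (fun t => (ZMod.chineseRemainder h t).2) hij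
    simp only [map_mul, map_pow, map_natCast, Prod.snd_mul, Prod.pow_snd, Prod.snd_natCast] at h1
    rw [hu, hz]
    exact h1
  · rintro ⟨i, j, hij⟩
    refine ⟨i + k, j + k, ?_⟩
    apply (ZMod.chineseRemainder h).injective
    have h0 : ((p : ZMod (p ^ k))) ^ k = 0 := by
      rw [← Nat.cast_pow, ZMod.natCast_self]
    apply Prod.ext
    · simp only [map_mul, map_pow, map_natCast, Prod.fst_mul, Prod.pow_fst, Prod.fst_natCast,
        pow_add, h0, mul_zero]
    · simp only [map_mul, map_pow, map_natCast, Prod.snd_mul, Prod.pow_snd, Prod.snd_natCast]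
      rw [← hu, ← hz, pow_add, pow_add, ← mul_assoc, ← mul_assoc, hij]

end CRT

section Theta2

open scoped Classical in
/-- The normal basis type element. -/
theorem exists_theta2' (p : ℕ) [hp : Fact p.Prime] {k m : ℕ} (hk : 0 < k) [NeZero m]
    [NeZero (p ^ k * m)] (h : (p ^ k).Coprime m) :
    ∃ (ι : Type) (_ : Fintype ι) (a : ι → MonoidAlgebra ℚ (Multiplicative (ZMod (p ^ k * m))))
      (e : ι → MonoidAlgebra ℚ_[p] (Multiplicative (ZMod (p ^ k * m)))) (M : ι → ℤ) (N : ℕ),
      (∀ i, Node p (a i) (e i)) ∧ 0 < N ∧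
      (∀ c, Subgroup.zpowers c ≠ ⊤ → (∑ i, (M i : ℚ_[p]) • e i).coeff c = 0) ∧
      ∀ (Y : (ZMod (p ^ k * m))ˣ → ℚ) (y : ℚ),
        ∑ u : (ZMod (p ^ k * m))ˣ, (∑ i, (M i : ℚ_[p]) • e i).coeff
          (Multiplicative.ofAdd (u : ZMod (p ^ k * m))) * (Y u : ℚ_[p]) = (y : ℚ_[p]) →
        ∀ z, (N : ℚ) * ∑ u ∈ Finset.univ.filter (fun u => uRel (p ^ k * m) p u z), Y u =
          y * (Finset.univ.filter (fun u => uRel (p ^ k * m) p u z)).card := by
  have : NeZero (p ^ k) := ⟨pow_ne_zero _ hp.out.ne_zero⟩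
  let P := Multiplicative (ZMod (p ^ k))
  let Q := Multiplicative (ZMod m)
  obtain ⟨r, F, μ, N, hF, hN, hsupp, hkey⟩ := exists_theta p (C := Q)
  have hcardQ : (Nat.card Q).Coprime p := by
    rw [card_Cn]
    exact (Nat.Coprime.coprime_dvd_left (dvd_pow_self p hk.ne') h).symm
  have hint := fun i => exists_int_idem hcardQ (F i) (by rw [← pow_two, hF])
  choose F0 hF0 hF0' using hint
  let P1 : Subgroup P := (powMonoidHom p : P →* P).range
  obtain ⟨j, -, hj⟩ : ∃ j ≤ k, Nat.card P1 = p ^ j := by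
    have h1 := Subgroup.card_subgroup_dvd_card P1
    rw [card_Cn] at h1
    exact (Nat.dvd_prime_pow hp.out).1 h1
  have hA : ∀ i, ∃ a, Node p (C := P × Q) a (((p : ℚ_[p]) ^ k)⁻¹ •
      (sH ℚ_[p] ((⊤ : Subgroup P).prod (⊥ : Subgroup Q)) *
        zp p (P × Q) (rm ℤ_[p] (MonoidHom.inr P Q) (F0 i)))) := by
    intro i
    refine node_exists p _ k ?_ _ (by rw [← map_mul, hF0'])
    rw [card_prod_bot, Subgroup.card_top, card_Cn]
  have hB : ∀ i, ∃ a, Node p (C := P × Q) a (((p : ℚ_[p]) ^ j)⁻¹ •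
      (sH ℚ_[p] (P1.prod (⊥ : Subgroup Q)) *
        zp p (P × Q) (rm ℤ_[p] (MonoidHom.inr P Q) (F0 i)))) := by
    intro i
    refine node_exists p _ j ?_ _ (by rw [← map_mul, hF0'])
    rw [card_prod_bot, hj]
  choose a ha using hA
  choose b hb using hB
  let f := crt h
  have hf : Function.Injective f := crt_inj h
  have hpk : ∀ i : ℕ, (p : ℚ_[p]) ^ i ≠ 0 := fun i =>
    pow_ne_zero _ (Nat.cast_ne_zero.2 hp.out.ne_zero)
  set E1 := fun i => ((p : ℚ_[p]) ^ k)⁻¹ •
      (sH ℚ_[p] ((⊤ : Subgroup P).prod (⊥ : Subgroup Q)) *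
        zp p (P × Q) (rm ℤ_[p] (MonoidHom.inr P Q) (F0 i))) with hE1
  set E2 := fun i => ((p : ℚ_[p]) ^ j)⁻¹ •
      (sH ℚ_[p] (P1.prod (⊥ : Subgroup Q)) *
        zp p (P × Q) (rm ℤ_[p] (MonoidHom.inr P Q) (F0 i))) with hE2
  -- the coefficients
  have hc : ∀ (A : Subgroup P) (i : Fin r) (x : P) (y : Q),
      (sH ℚ_[p] (A.prod (⊥ : Subgroup Q)) *
        zp p (P × Q) (rm ℤ_[p] (MonoidHom.inr P Q) (F0 i))).coeff (x, y) =
        (if x ∈ A then 1 else 0) * (F i).coeff y := by
    intro A i x y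
    have h0 : MonoidAlgebra.mapRingHom Q (PadicInt.Coe.ringHom (p := p)) (F0 i) = F i := hF0 i
    rw [sH_prod, ← rm_mapRingHom_apply, coeff_inl_inr, sH_coeff, h0]
  let M : Fin r ⊕ Fin r → ℤ := Sum.elim (fun i => μ i * p ^ k) (fun i => -(μ i * p ^ j))
  let e : Fin r ⊕ Fin r → MonoidAlgebra ℚ_[p] (Multiplicative (ZMod (p ^ k * m))) :=
    Sum.elim (fun i => rm ℚ_[p] f (E1 i)) (fun i => rm ℚ_[p] f (E2 i))
  let a' : Fin r ⊕ Fin r → MonoidAlgebra ℚ (Multiplicative (ZMod (p ^ k * m))) :=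
    Sum.elim (fun i => rm ℚ f (a i)) (fun i => rm ℚ f (b i))
  have ht : ∀ (x : P) (y : Q), (∑ i, (M i : ℚ_[p]) • e i).coeff (f (x, y)) =
      (if x ∈ P1 then 0 else 1) * (∑ i, (μ i : ℚ_[p]) • F i).coeff y := by
    intro x y
    rw [Fintype.sum_sum_type, MonoidAlgebra.coeff_add, Finsupp.add_apply,
      MonoidAlgebra.coeff_sum, MonoidAlgebra.coeff_sum, MonoidAlgebra.coeff_sum,
      Finset.sum_apply', Finset.sum_apply', Finset.sum_apply', Finset.mul_sum,
      ← Finset.sum_add_distrib]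
    refine Finset.sum_congr rfl fun i _ => ?_
    have h1 : ((M (Sum.inl i) : ℚ_[p]) • e (Sum.inl i)).coeff (f (x, y)) =
        (μ i : ℚ_[p]) * (F i).coeff y := by
      change (M (Sum.inl i) : ℚ_[p]) * (rm ℚ_[p] f (E1 i)).coeff (f (x, y)) = _
      rw [coeff_rm_inj f hf]
      change ((μ i * p ^ k : ℤ) : ℚ_[p]) * (((p : ℚ_[p]) ^ k)⁻¹ *
        (sH ℚ_[p] ((⊤ : Subgroup P).prod (⊥ : Subgroup Q)) *
          zp p (P × Q) (rm ℤ_[p] (MonoidHom.inr P Q) (F0 i))).coeff (x, y)) = _
      rw [hc, if_pos (Subgroup.mem_top x)]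
      push_cast
      have := hpk k
      field_simp
    have h2 : ((M (Sum.inr i) : ℚ_[p]) • e (Sum.inr i)).coeff (f (x, y)) =
        - ((μ i : ℚ_[p]) * ((if x ∈ P1 then 1 else 0) * (F i).coeff y)) := by
      change (M (Sum.inr i) : ℚ_[p]) * (rm ℚ_[p] f (E2 i)).coeff (f (x, y)) = _
      rw [coeff_rm_inj f hf]
      change ((-(μ i * p ^ j) : ℤ) : ℚ_[p]) * (((p : ℚ_[p]) ^ j)⁻¹ *
        (sH ℚ_[p] (P1.prod (⊥ : Subgroup Q)) *
          zp p (P × Q) (rm ℤ_[p] (MonoidHom.inr P Q) (F0 i))).coeff (x, y)) = _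
      rw [hc]
      push_cast
      have := hpk j
      field_simp
      ring_nf
    rw [h1, h2, MonoidAlgebra.coeff_smul_apply, smul_eq_mul]
    split_ifs <;> ring
  -- the values at the units
  let ue : (ZMod (p ^ k * m))ˣ ≃* (ZMod (p ^ k))ˣ × (ZMod m)ˣ :=
    (Units.mapEquiv (ZMod.chineseRemainder h).toMulEquiv).trans MulEquiv.prodUnits
  have hue1 : ∀ u, (((ue u).1 : (ZMod (p ^ k))ˣ) : ZMod (p ^ k)) =
      (ZMod.chineseRemainder h u).1 := fun u => rfl
  have hue2 : ∀ u, (((ue u).2 : (ZMod m)ˣ) : ZMod m) =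
      (ZMod.chineseRemainder h u).2 := fun u => rfl
  have htu : ∀ u : (ZMod (p ^ k * m))ˣ, (∑ i, (M i : ℚ_[p]) • e i).coeff
      (Multiplicative.ofAdd (u : ZMod (p ^ k * m))) =
      (∑ i, (μ i : ℚ_[p]) • F i).coeff (unitsGens m (ue u).2).1 := by
    intro u
    rw [← crt_apply h (u : ZMod (p ^ k * m))]
    change (∑ i, (M i : ℚ_[p]) • e i).coeff (f _) = _
    rw [ht, if_neg, one_mul]
    · rfl
    · rw [mem_range_pow_iff p hk, not_not, ← hue1]
      exact (ue u).1.isUnit
  refine ⟨Fin r ⊕ Fin r, inferInstance, a', e, M, N * Fintype.card (ZMod (p ^ k))ˣ, ?_, ?_, ?_, ?_⟩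
  · rintro (i | i)
    · exact (ha i).map f
    · exact (hb i).map f
  · exact Nat.mul_pos hN Fintype.card_pos
  · intro c hcg
    have h1 := crt_apply h (Multiplicative.toAdd c)
    rw [ofAdd_toAdd] at h1
    rw [← h1]
    change (∑ i, (M i : ℚ_[p]) • e i).coeff (f _) = 0
    rw [ht]
    by_cases hx : Multiplicative.ofAdd (ZMod.chineseRemainder h (Multiplicative.toAdd c)).1 ∈ P1
    · rw [if_pos hx, zero_mul]
    · rw [hsupp, mul_zero]
      intro hy
      apply hcg
      rw [mem_range_pow_iff p hk, not_not] at hx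
      rw [gen_iff_isUnit] at hy
      have h2 : IsUnit (ZMod.chineseRemainder h (Multiplicative.toAdd c)) := by
        rw [Prod.isUnit_iff]
        exact ⟨hx, hy⟩
      have h3 : IsUnit (Multiplicative.toAdd c) := by
        have := h2.map (ZMod.chineseRemainder h).symm
        rwa [RingEquiv.symm_apply_apply] at this
      rw [← ofAdd_toAdd c, gen_iff_isUnit]
      exact h3
  · intro Y y hy z
    let Y' : (ZMod m)ˣ → ℚ := fun b => ∑ a, Y (ue.symm (a, b))
    have hsum : ∀ Φ : (ZMod m)ˣ → (ZMod (p ^ k * m))ˣ → ℚ_[p],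
        ∑ u, Φ (ue u).2 u = ∑ b, ∑ a, Φ b (ue.symm (a, b)) := by
      intro Φ
      rw [← ue.symm.toEquiv.sum_comp (fun u => Φ (ue u).2 u), Fintype.sum_prod_type_right]
      refine Finset.sum_congr rfl fun b _ => Finset.sum_congr rfl fun a _ => ?_
      change Φ (ue (ue.symm (a, b))).2 (ue.symm (a, b)) = _
      rw [MulEquiv.apply_symm_apply]
    have h1 := hkey (fun x => Y' ((unitsGens m).symm x)) y (by
      have h2 := hsum (fun b u => (∑ i, (μ i : ℚ_[p]) • F i).coeff (unitsGens m b).1 *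
        (Y u : ℚ_[p]))
      have h0 : ∑ u : (ZMod (p ^ k * m))ˣ, (∑ i, (M i : ℚ_[p]) • e i).coeff
          (Multiplicative.ofAdd (u : ZMod (p ^ k * m))) * (Y u : ℚ_[p]) =
          ∑ u : (ZMod (p ^ k * m))ˣ, (∑ i, (μ i : ℚ_[p]) • F i).coeff
            (unitsGens m (ue u).2).1 * (Y u : ℚ_[p]) :=
        Finset.sum_congr rfl fun u _ => by rw [htu u]
      rw [← hy, h0, h2, ← (unitsGens m).sum_comp]
      refine Finset.sum_congr rfl fun b _ => ?_
      rw [Equiv.symm_apply_apply, ← Finset.mul_sum]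
      congr 1
      simp only [Y']
      push_cast
      rfl) (unitsGens m (ue z).2)
    have h2 : Finset.univ.filter (fun u : Gens (Multiplicative (ZMod m)) =>
        rel p u.1 (unitsGens m (ue z).2).1) =
        (Finset.univ.filter (fun u => uRel m p u (ue z).2)).map (unitsGens m).toEmbedding := by
      ext u
      rw [Finset.mem_map, Finset.mem_filter]
      constructor
      · intro hu
        refine ⟨(unitsGens m).symm u, ?_, by simp⟩
        rw [Finset.mem_filter]
        refine ⟨Finset.mem_univ _, ?_⟩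
        rw [← uRel_iff, Equiv.apply_symm_apply]
        exact hu.2
      · rintro ⟨v, hv, rfl⟩
        refine ⟨Finset.mem_univ _, ?_⟩
        exact (uRel_iff m p v (ue z).2).2 (Finset.mem_filter.1 hv).2
    rw [h2, Finset.sum_map, Finset.card_map] at h1
    have h3 : ∀ Φ : (ZMod (p ^ k * m))ˣ → ℚ,
        ∑ u ∈ Finset.univ.filter (fun u => uRel (p ^ k * m) p u z), Φ u =
        ∑ b ∈ Finset.univ.filter (fun b => uRel m p b (ue z).2), ∑ a, Φ (ue.symm (a, b)) := by
      intro Φ
      rw [Finset.sum_filter, Finset.sum_filter,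
        ← ue.symm.toEquiv.sum_comp (fun u => if uRel (p ^ k * m) p u z then Φ u else 0),
        Fintype.sum_prod_type_right]
      refine Finset.sum_congr rfl fun b _ => ?_
      have h4 : ∀ a, uRel (p ^ k * m) p (ue.symm.toEquiv (a, b)) z ↔ uRel m p b (ue z).2 := by
        intro a
        apply uRel_crt p h
        · have h5 : ue (ue.symm (a, b)) = (a, b) := ue.apply_symm_apply _
          change (b : ZMod m) = (ZMod.chineseRemainder h (ue.symm (a, b) : (ZMod (p ^ k * m))ˣ)).2
          rw [← hue2, h5]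
        · rfl
      by_cases hb : uRel m p b (ue z).2
      · rw [if_pos hb]
        refine Finset.sum_congr rfl fun a _ => ?_
        rw [if_pos ((h4 a).2 hb)]
        rfl
      · rw [if_neg hb]
        refine Finset.sum_eq_zero fun a _ => ?_
        rw [if_neg (fun h5 => hb ((h4 a).1 h5))]
    have h5 : ((Finset.univ.filter (fun u => uRel (p ^ k * m) p u z)).card : ℚ) =
        (Fintype.card (ZMod (p ^ k))ˣ : ℚ) *
        ((Finset.univ.filter (fun b => uRel m p b (ue z).2)).card : ℚ) := by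
      have h6 := h3 (fun _ => 1)
      rw [Finset.sum_const, nsmul_eq_mul, mul_one] at h6
      rw [h6]
      simp only [Finset.sum_const, nsmul_eq_mul, mul_one, Finset.card_univ]
      ring
    rw [h3, h5]
    have h7 : ∑ b ∈ Finset.univ.filter (fun b => uRel m p b (ue z).2), ∑ a, Y (ue.symm (a, b)) =
        ∑ x ∈ Finset.univ.filter (fun b => uRel m p b (ue z).2),
          Y' ((unitsGens m).symm ((unitsGens m).toEmbedding x)) := by
      refine Finset.sum_congr rfl fun b _ => ?_
      have h8 : (unitsGens m).symm ((unitsGens m).toEmbedding b) = b := by simp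
      rw [h8]
    rw [h7]
    push_cast
    linear_combination (Fintype.card (ZMod (p ^ k))ˣ : ℚ) * h1

open scoped Classical in
/-- The normal basis type element. -/
theorem exists_theta2 (p : ℕ) [hp : Fact p.Prime] (n : ℕ) [hn : NeZero n] (hpn : p ∣ n) :
    ∃ (ι : Type) (_ : Fintype ι) (a : ι → MonoidAlgebra ℚ (Multiplicative (ZMod n)))
      (e : ι → MonoidAlgebra ℚ_[p] (Multiplicative (ZMod n))) (M : ι → ℤ) (N : ℕ),
      (∀ i, Node p (a i) (e i)) ∧ 0 < N ∧
      (∀ c, Subgroup.zpowers c ≠ ⊤ → (∑ i, (M i : ℚ_[p]) • e i).coeff c = 0) ∧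
      ∀ (Y : (ZMod n)ˣ → ℚ) (y : ℚ),
        ∑ u : (ZMod n)ˣ, (∑ i, (M i : ℚ_[p]) • e i).coeff
          (Multiplicative.ofAdd (u : ZMod n)) * (Y u : ℚ_[p]) = (y : ℚ_[p]) →
        ∀ z, (N : ℚ) * ∑ u ∈ Finset.univ.filter (fun u => uRel n p u z), Y u =
          y * (Finset.univ.filter (fun u => uRel n p u z)).card := by
  obtain ⟨k, m, hm, rfl⟩ := Nat.exists_eq_pow_mul_and_not_dvd (NeZero.ne n) p hp.out.one_lt.ne'
  have hk : 0 < k := by
    rcases Nat.eq_zero_or_pos k with h | h
    · subst h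
      rw [pow_zero, one_mul] at hpn
      exact absurd hpn hm
    · exact h
  have : NeZero m := ⟨fun h => hm (by rw [h]; exact dvd_zero p)⟩
  exact exists_theta2' p hk ((hp.out.coprime_iff_not_dvd.2 hm).pow_left k)

end Theta2

end Pool.Agent.Lib25.H2
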