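import Pool.Agent.Lib_helper25.Detect0

/-!
# Definitions for the node classes (functoriality of group algebras, `Node`)
-/

set_option autoImplicit false
set_option linter.unusedSectionVars false

open Matrix

namespace Pool.Agent.Lib25.H2

universe u v w

/-- The coefficient homomorphism `ℤ[Z] → ℚ[Z]`. -/
noncomputable abbrev cq (Z : Type*) [Group Z] : MonoidAlgebra ℤ Z →+* MonoidAlgebra ℚ Z := cg ℚ Z

section Gp

variable {A : Type u} {B : Type v} {C : Type w} [Group A] [Group B] [Group C]

/-- The ring homomorphism `k[A] → k[B]` induced by a group homomorphism. -/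
noncomputable abbrev rm (k : Type*) [CommRing k] {A : Type*} {B : Type*} [Group A] [Group B]
    (f : A →* B) : MonoidAlgebra k A →+* MonoidAlgebra k B := MonoidAlgebra.mapDomainRingHom k f

theorem rm_single (k : Type*) [CommRing k] (f : A →* B) (a : A) (r : k) :
    rm k f (MonoidAlgebra.single a r) = MonoidAlgebra.single (f a) r := by
  unfold rm
  rw [MonoidAlgebra.mapDomainRingHom_apply, MonoidAlgebra.mapDomain_single]

theorem rm_ext {k : Type*} [CommRing k] {R : Type*} [Ring R] {φ ψ : MonoidAlgebra k A →+* R}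
    (h : ∀ a r, φ (MonoidAlgebra.single a r) = ψ (MonoidAlgebra.single a r)) : φ = ψ := by
  refine RingHom.ext fun x => ?_
  induction x using MonoidAlgebra.induction_linear with
  | zero => rw [map_zero, map_zero]
  | add x y hx hy => rw [map_add, map_add, hx, hy]
  | single g r => exact h g r

theorem rm_comp (k : Type*) [CommRing k] (g : B →* C) (f : A →* B) :
    (rm k g).comp (rm k f) = rm k (g.comp f) :=
  rm_ext fun a r => by
    rw [RingHom.comp_apply, rm_single, rm_single, rm_single]
    rfl

theorem rm_mapRingHom {k k' : Type*} [CommRing k] [CommRing k'] (i : k →+* k') (f : A →* B) :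
    (rm k' f).comp (MonoidAlgebra.mapRingHom A i) =
      (MonoidAlgebra.mapRingHom B i).comp (rm k f) :=
  rm_ext fun a r => by
    rw [RingHom.comp_apply, RingHom.comp_apply, rm_single, MonoidAlgebra.mapRingHom_single,
      MonoidAlgebra.mapRingHom_single, rm_single]

theorem rm_mapRingHom_apply {k k' : Type*} [CommRing k] [CommRing k'] (i : k →+* k') (f : A →* B)
    (x : MonoidAlgebra k A) :
    rm k' f (MonoidAlgebra.mapRingHom A i x) = MonoidAlgebra.mapRingHom B i (rm k f x) :=
  DFunLike.congr_fun (rm_mapRingHom i f) x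

theorem mapRingHom_comp' {k k' k'' : Type*} [CommRing k] [CommRing k'] [CommRing k'']
    (i : k →+* k') (j : k' →+* k'') :
    (MonoidAlgebra.mapRingHom A j).comp (MonoidAlgebra.mapRingHom A i) =
      MonoidAlgebra.mapRingHom A (j.comp i) :=
  rm_ext fun a r => by
    rw [RingHom.comp_apply, MonoidAlgebra.mapRingHom_single, MonoidAlgebra.mapRingHom_single,
      MonoidAlgebra.mapRingHom_single]
    rfl

end Gp

section Node

/-- The coefficient homomorphisms. -/
noncomputable abbrev qp (p : ℕ) [Fact p.Prime] (C : Type*) [Group C] :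
    MonoidAlgebra ℚ C →+* MonoidAlgebra ℚ_[p] C := MonoidAlgebra.mapRingHom C (algebraMap ℚ ℚ_[p])

/-- The coefficient homomorphisms. -/
noncomputable abbrev zp (p : ℕ) [Fact p.Prime] (C : Type*) [Group C] :
    MonoidAlgebra ℤ_[p] C →+* MonoidAlgebra ℚ_[p] C :=
  MonoidAlgebra.mapRingHom C (PadicInt.Coe.ringHom (p := p))

/-- The data attached to an idempotent of `ℚ_p[C]`. -/
structure Node (p : ℕ) [Fact p.Prime] {C : Type*} [CommGroup C] (a : MonoidAlgebra ℚ C)
    (e : MonoidAlgebra ℚ_[p] C) : Prop where
  int1 : ∃ b, cq C b = a - a * a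
  int2 : ∃ c, cq C c = a * (a - a * a)
  idem : e * e = e
  orth : e * qp p C a = 0
  loc : ∃ a' : MonoidAlgebra ℤ_[p] C, zp p C a' = qp p C a + e
  away : ∀ (q : ℕ) [Fact q.Prime], q ≠ p → ∃ a' : MonoidAlgebra ℤ_[q] C, zp q C a' = qp q C a

end Node

end Pool.Agent.Lib25.H2
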